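import Pool.Agent.L0h20.SY.Stm

/-!
# SY: counting the images
-/

set_option autoImplicit false
set_option linter.unusedSectionVars false

namespace Pool.Agent.L0h75.SY

open Pool.Agent.L0h20.SY

section
variable {Ω : Type} [Fintype Ω] [DecidableEq Ω] {W : Finset Ω}

lemma permOf_inv {σ : Equiv.Perm Ω} (h : PermOf W σ) : PermOf W σ⁻¹ := by
  intro x hx
  rw [Equiv.Perm.inv_eq_iff_eq]
  exact (h x hx).symm

lemma permOf_mem {σ : Equiv.Perm Ω} (h : PermOf W σ) {x : Ω} (hx : x ∈ W) : σ x ∈ W := by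
  by_contra hc
  have h1 := h _ hc
  have h2 := σ.injective h1
  rw [h2] at hc
  exact hc hx

/-- a permutation of `W` which maps `B` to `X` -/
lemma exists_map {B X : Finset Ω} (hB : B ⊆ W) (hX : X ⊆ W) (hc : B.card = X.card) :
    ∃ σ : Equiv.Perm Ω, PermOf W σ ∧ B.map σ.toEmbedding = X := by
  classical
  have hcard : ∀ Y : Finset Ω, Y ⊆ W → Fintype.card {w : W // (w : Ω) ∈ Y} = Y.card := by
    intro Y hY
    rw [Fintype.card_subtype]
    rw [← Finset.card_map (Function.Embedding.subtype (fun x => x ∈ W))]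
    congr 1
    ext x
    simp only [Finset.mem_map, Finset.mem_filter, Finset.mem_univ, true_and,
      Function.Embedding.subtype_apply, Subtype.exists, exists_and_left, exists_prop,
      exists_eq_right_right]
    exact ⟨fun h => h.1, fun h => ⟨h, hY h⟩⟩
  have e : {w : W // (w : Ω) ∈ B} ≃ {w : W // (w : Ω) ∈ X} :=
    Fintype.equivOfCardEq (by rw [hcard B hB, hcard X hX, hc])
  set σ' : Equiv.Perm W := e.extendSubtype with hσ'
  refine ⟨Equiv.Perm.ofSubtype σ', fun x hx => Equiv.Perm.ofSubtype_apply_of_not_mem _ hx, ?_⟩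
  refine Finset.eq_of_subset_of_card_le ?_ (by rw [Finset.card_map, hc])
  intro y hy
  obtain ⟨b, hb, rfl⟩ := Finset.mem_map.1 hy
  have h1 : (Equiv.Perm.ofSubtype σ') b = (σ' ⟨b, hB hb⟩ : Ω) :=
    Equiv.Perm.ofSubtype_apply_of_mem σ' (hB hb)
  show (Equiv.Perm.ofSubtype σ') b ∈ X
  rw [h1]
  exact Equiv.extendSubtype_mem e ⟨b, hB hb⟩ hb

end

lemma two_pow_le (b : ℕ) : 2 ^ b ≤ Nat.centralBinom b := by
  induction b with
  | zero => simp
  | succ n ih =>
    have h := Nat.succ_mul_centralBinom_succ n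
    have h1 : (n + 1) * 2 ^ (n + 1) ≤ (n + 1) * Nat.centralBinom (n + 1) := by
      rw [h, pow_succ]
      nlinarith
    exact Nat.le_of_mul_le_mul_left h1 (Nat.succ_pos n)

theorem t_CNT (_h1 : S_SWAP) (h2 : S_INT) (h3 : S_MAP) : S_CNT := by
  classical
  intro Ω X _ _ _ W A k x hA hAW hS hM
  have hex : ∃ b, ∃ B ⊆ W, B.card = b ∧ Sup W B x := ⟨_, A, hA, rfl, hS⟩
  set b := Nat.find hex with hb
  obtain ⟨B, hBW, hBc, hB⟩ := Nat.find_spec hex
  have hmin : ∀ C ⊆ W, Sup W C x → b ≤ C.card := fun C hC h => Nat.find_min' hex ⟨C, hC, rfl, h⟩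
  by_cases hk : b ≤ k
  · exact ⟨B, hBW, by rw [hBc]; exact hk, hB⟩
  exfalso
  apply hM
  have hbA : b ≤ A.card := hmin A hA hS
  have hf : ∀ Y : Finset Ω, ∃ σ : Equiv.Perm Ω, PermOf W σ ∧
      (Y ∈ W.powersetCard b → B.map σ.toEmbedding = Y) := by
    intro Y
    by_cases hY : Y ∈ W.powersetCard b
    · obtain ⟨h4, h5⟩ := Finset.mem_powersetCard.1 hY
      obtain ⟨σ, hσ, h6⟩ := exists_map hBW h4 (by rw [hBc, h5])
      exact ⟨σ, hσ, fun _ => h6⟩
    · exact ⟨1, fun _ _ => rfl, fun h => absurd h hY⟩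
  choose f hf1 hf2 using hf
  have key : ∀ Y ∈ W.powersetCard b, ∀ Z ∈ W.powersetCard b, f Y • x = f Z • x → Y = Z := by
    intro Y hY Z hZ h
    obtain ⟨hYW, hYc⟩ := Finset.mem_powersetCard.1 hY
    obtain ⟨hZW, hZc⟩ := Finset.mem_powersetCard.1 hZ
    have s1 : Sup W Y (f Y • x) := by
      have := h3 Ω X W B x (f Y) (hf1 Y) hB
      rwa [hf2 Y hY] at this
    have s2 : Sup W Z (f Y • x) := by
      have := h3 Ω X W B x (f Z) (hf1 Z) hB
      rwa [hf2 Z hZ, ← h] at this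
    have hw : ∃ w ∈ W, w ∉ Y ∧ w ∉ Z := by
      by_contra hcon
      push Not at hcon
      have h4 : W ⊆ Y ∪ Z := fun w hw => by
        rw [Finset.mem_union]
        by_cases h5 : w ∈ Y
        · exact Or.inl h5
        · exact Or.inr (hcon w hw h5)
      have h5 := (Finset.card_le_card h4).trans (Finset.card_union_le Y Z)
      omega
    have s3 := h2 Ω X W Y Z (f Y • x) s1 s2 hw
    have s4 := h3 Ω X W (Y ∩ Z) (f Y • x) (f Y)⁻¹ (permOf_inv (hf1 Y)) s3
    rw [inv_smul_smul] at s4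
    have s5 := hmin _ (fun y hy => by
      obtain ⟨z, hz, rfl⟩ := Finset.mem_map.1 hy
      exact permOf_mem (permOf_inv (hf1 Y)) (hYW (Finset.mem_inter.1 hz).1)) s4
    rw [Finset.card_map] at s5
    have h6 : Y ∩ Z = Y := Finset.eq_of_subset_of_card_le Finset.inter_subset_left (by omega)
    have h7 : Y ∩ Z = Z := Finset.eq_of_subset_of_card_le Finset.inter_subset_right (by omega)
    rw [← h6, h7]
  refine ⟨(W.powersetCard b).image f, ?_, ?_, ?_⟩
  · rw [Finset.card_image_of_injOn fun Y hY Z hZ h => key Y hY Z hZ (by rw [h]),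
      Finset.card_powersetCard]
    calc 2 ^ (k + 1) ≤ 2 ^ b := Nat.pow_le_pow_right (by norm_num) (by omega)
      _ ≤ Nat.centralBinom b := two_pow_le b
      _ = (2 * b).choose b := rfl
      _ ≤ W.card.choose b := Nat.choose_le_choose b (by omega)
  · intro σ hσ
    obtain ⟨Y, -, rfl⟩ := Finset.mem_image.1 hσ
    exact hf1 Y
  · intro σ hσ τ hτ h
    obtain ⟨Y, hY, rfl⟩ := Finset.mem_image.1 hσ
    obtain ⟨Z, hZ, rfl⟩ := Finset.mem_image.1 hτ
    rw [key Y hY Z hZ h]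

end Pool.Agent.L0h75.SY
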